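import Mathlib

/-!
# MP_b192cd_nt: the Collatz residues are bounded by an absolute constant

Method: by Terras, the parities of the first `t` terms determine `n` modulo `2 ^ t`, so at most
`2 * 1.96 ^ t` numbers of `[2 ^ t, 2 ^ (t + 1))` are larger than `1.96 ^ t` after `t` steps of the
shortcut map.  The terms of a convergent trajectory before `1` are distinct, hence at most
`4 * 1.96 ^ t` of them lie in `[2 ^ t, 2 ^ (t + 1))`, and the sum of the reciprocals of the terms
`≥ 2 ^ s` is at most `200 * 0.98 ^ s`.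
-/

namespace Pool.Agent.Results.MP_b192cd_nt.ResidueBounded

open Finset

/-- the Collatz map. -/
def C (n : ℕ) : ℕ := if n % 2 = 0 then n / 2 else 3 * n + 1

/-- a positive integer whose Collatz trajectory reaches `1`. -/
def Convergent (x : ℕ) : Prop := 0 < x ∧ ∃ k, C^[k] x = 1

/-- the least number of steps to reach `1`. -/
noncomputable def steps (x : ℕ) : ℕ := sInf {k | C^[k] x = 1}

/-- the number of even terms before the first occurrence of `1`. -/
noncomputable def E (x : ℕ) : ℕ := ((range (steps x)).filter (fun i => C^[i] x % 2 = 0)).card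

/-- the number of odd terms before the first occurrence of `1`. -/
noncomputable def O (x : ℕ) : ℕ := ((range (steps x)).filter (fun i => C^[i] x % 2 = 1)).card

/-- the residue `2^E(x) / (x 3^O(x))`. -/
noncomputable def Res (x : ℕ) : ℝ := 2 ^ (E x) / ((x : ℝ) * 3 ^ (O x))

/-! ## The shortcut map -/

/-- the shortcut Collatz map. -/
def T (n : ℕ) : ℕ := if n % 2 = 0 then n / 2 else (3 * n + 1) / 2

lemma T_even {n : ℕ} (h : n % 2 = 0) : 2 * T n = n := by
  unfold T
  rw [if_pos h]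
  omega

lemma T_odd {n : ℕ} (h : n % 2 = 1) : 2 * T n = 3 * n + 1 := by
  unfold T
  rw [if_neg (by omega)]
  omega

lemma T_pos {n : ℕ} (h : 0 < n) : 0 < T n := by
  rcases Nat.mod_two_eq_zero_or_one n with h0 | h1
  · have := T_even h0; omega
  · have := T_odd h1; omega

lemma iter_pos {x : ℕ} (h : 0 < x) (i : ℕ) : 0 < T^[i] x := by
  induction i with
  | zero => exact h
  | succ i ih =>
    rw [Function.iterate_succ_apply']
    exact T_pos ih

/-- the positions of odd terms. -/
def par (t n : ℕ) : Finset ℕ := (range t).filter (fun i => T^[i] n % 2 = 1)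

lemma par_inj (t : ℕ) : ∀ n n', par t n = par t n' → n ≡ n' [MOD 2 ^ t] := by
  induction t with
  | zero => intro n n' _; simp [Nat.modEq_one]
  | succ t ih =>
    intro n n' h
    have h0 : n % 2 = 1 ↔ n' % 2 = 1 := by
      have h1 : 0 ∈ par (t + 1) n ↔ 0 ∈ par (t + 1) n' := by rw [h]
      simpa [par] using h1
    have h2 : par t (T n) = par t (T n') := by
      ext i
      have h1 : i + 1 ∈ par (t + 1) n ↔ i + 1 ∈ par (t + 1) n' := by rw [h]
      simpa [par, Function.iterate_succ_apply] using h1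
    have h3 := ih _ _ h2
    have h4 : 2 * T n ≡ 2 * T n' [MOD 2 ^ (t + 1)] := by
      rw [pow_succ']
      exact Nat.ModEq.mul_left' 2 h3
    rcases Nat.mod_two_eq_zero_or_one n with hn | hn
    · have hn' : n' % 2 = 0 := by
        rcases Nat.mod_two_eq_zero_or_one n' with h5 | h5
        · exact h5
        · have := h0.2 h5; omega
      rwa [T_even hn, T_even hn'] at h4
    · have hn' := h0.1 hn
      rw [T_odd hn, T_odd hn'] at h4
      have h5 : 3 * n ≡ 3 * n' [MOD 2 ^ (t + 1)] := Nat.ModEq.add_right_cancel' 1 h4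
      apply Nat.ModEq.cancel_left_of_coprime _ h5
      apply Nat.Coprime.pow_left
      norm_num

lemma size (t n : ℕ) : 2 ^ t * T^[t] n ≤ 3 ^ (par t n).card * (n + 2 ^ t) := by
  induction t with
  | zero => simp [par]
  | succ t ih =>
    rw [Function.iterate_succ_apply']
    have hpow : (2 : ℕ) ^ (t + 1) = 2 * 2 ^ t := by ring
    rcases Nat.mod_two_eq_zero_or_one (T^[t] n) with h | h
    · have hc : par (t + 1) n = par t n := by
        unfold par
        rw [range_add_one, filter_insert, if_neg (by omega)]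
      have h1 := T_even h
      rw [hc]
      calc 2 ^ (t + 1) * T (T^[t] n) = 2 ^ t * (2 * T (T^[t] n)) := by ring
        _ = 2 ^ t * T^[t] n := by rw [h1]
        _ ≤ 3 ^ (par t n).card * (n + 2 ^ t) := ih
        _ ≤ 3 ^ (par t n).card * (n + 2 ^ (t + 1)) := by
            apply Nat.mul_le_mul_left
            omega
    · have hc : (par (t + 1) n).card = (par t n).card + 1 := by
        unfold par
        rw [range_add_one, filter_insert, if_pos h, card_insert_of_notMem (by simp)]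
      have h1 := T_odd h
      rw [hc]
      have h3 : 1 ≤ 3 ^ ((par t n).card + 1) := Nat.one_le_pow _ _ (by norm_num)
      calc 2 ^ (t + 1) * T (T^[t] n) = 2 ^ t * (2 * T (T^[t] n)) := by ring
        _ = 3 * (2 ^ t * T^[t] n) + 2 ^ t := by rw [h1]; ring
        _ ≤ 3 * (3 ^ (par t n).card * (n + 2 ^ t)) + 1 * 2 ^ t := by omega
        _ ≤ 3 * (3 ^ (par t n).card * (n + 2 ^ t)) + 3 ^ ((par t n).card + 1) * 2 ^ t := by
            apply Nat.add_le_add_left
            exact Nat.mul_le_mul_right _ h3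
        _ = 3 ^ ((par t n).card + 1) * (n + 2 ^ (t + 1)) := by ring

lemma size' (t n : ℕ) (hn : n < 2 ^ (t + 1)) : T^[t] n ≤ 3 ^ ((par t n).card + 1) := by
  have h := size t n
  have hp : 0 < 2 ^ t := by positivity
  have hpow : (2 : ℕ) ^ (t + 1) = 2 * 2 ^ t := by ring
  have h1 : 3 ^ (par t n).card * (n + 2 ^ t) ≤ 3 ^ (par t n).card * (3 * 2 ^ t) := by
    apply Nat.mul_le_mul_left
    omega
  have h2 : 2 ^ t * T^[t] n ≤ 2 ^ t * 3 ^ ((par t n).card + 1) := by
    calc _ ≤ _ := h
      _ ≤ _ := h1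
      _ = _ := by ring
  exact Nat.le_of_mul_le_mul_left h2 hp

/-- the generating function bound. -/
lemma gen (t : ℕ) (z : ℝ) (hz : 0 ≤ z) :
    ∑ n ∈ Ico (2 ^ t) (2 ^ (t + 1)), z ^ (par t n).card ≤ (z + 1) ^ t := by
  have hinj : Set.InjOn (par t) (Ico (2 ^ t) (2 ^ (t + 1)) : Finset ℕ) := by
    intro n hn n' hn' h
    have h1 := par_inj t n n' h
    rw [coe_Ico, Set.mem_Ico] at hn hn'
    have hpow : (2 : ℕ) ^ (t + 1) = 2 ^ t + 2 ^ t := by ring
    have h2 : (n - 2 ^ t) ≡ (n' - 2 ^ t) [MOD 2 ^ t] := by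
      apply Nat.ModEq.add_right_cancel' (2 ^ t)
      rw [Nat.sub_add_cancel hn.1, Nat.sub_add_cancel hn'.1]
      exact h1
    have h3 := Nat.ModEq.eq_of_lt_of_lt h2 (by omega) (by omega)
    omega
  have h1 : ∑ n ∈ Ico (2 ^ t) (2 ^ (t + 1)), z ^ (par t n).card =
      ∑ S ∈ (Ico (2 ^ t) (2 ^ (t + 1))).image (par t), z ^ S.card := by
    rw [sum_image hinj]
  rw [h1]
  have h2 : (Ico (2 ^ t) (2 ^ (t + 1))).image (par t) ⊆ (range t).powerset := by
    intro S hS
    rw [mem_image] at hS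
    obtain ⟨n, -, rfl⟩ := hS
    rw [mem_powerset]
    exact filter_subset _ _
  have h3 := Finset.sum_pow_mul_eq_add_pow z 1 (range t)
  simp only [one_pow, mul_one, card_range] at h3
  rw [← h3]
  exact sum_le_sum_of_subset_of_nonneg h2 (fun S _ _ => pow_nonneg hz _)

/-- the numbers of a dyadic block that stay large for `t` steps. -/
noncomputable def Exc (t : ℕ) : Finset ℕ :=
  (Ico (2 ^ t) (2 ^ (t + 1))).filter (fun n => (1.96 : ℝ) ^ t < ((T^[t] n : ℕ) : ℝ))

/-- few numbers of a dyadic block stay large for `t` steps. -/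
lemma count_exc (t : ℕ) : ((Exc t).card : ℝ) ≤ 2 * 1.96 ^ t := by
  set z : ℝ := Real.sqrt 3 with hz
  have hz0 : 0 ≤ z := Real.sqrt_nonneg 3
  have hz2 : z ^ 2 = 3 := Real.sq_sqrt (by norm_num)
  have hz3 : z ≤ 1.74 := by
    rw [hz, Real.sqrt_le_left (by norm_num)]
    norm_num
  have h14 : (0 : ℝ) < 1.4 ^ t := by positivity
  have e196 : (1.96 : ℝ) ^ t = (1.4 ^ t) ^ 2 := by
    rw [← pow_mul, mul_comm t 2, pow_mul]
    norm_num
  have hterm : ∀ n ∈ Exc t, (1 : ℝ) ≤ z * z ^ (par t n).card / 1.4 ^ t := by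
    intro n hn
    unfold Exc at hn
    rw [mem_filter, mem_Ico] at hn
    have h1 : ((T^[t] n : ℕ) : ℝ) ≤ 3 ^ ((par t n).card + 1) := by
      exact_mod_cast size' t n hn.1.2
    have h2 : (1.4 ^ t : ℝ) ^ 2 < (z ^ ((par t n).card + 1)) ^ 2 := by
      rw [← e196, ← pow_mul, mul_comm _ 2, pow_mul, hz2]
      exact lt_of_lt_of_le hn.2 h1
    have h3 : (1.4 ^ t : ℝ) < z ^ ((par t n).card + 1) :=
      lt_of_pow_lt_pow_left₀ 2 (pow_nonneg hz0 _) h2
    rw [le_div_iff₀ h14, one_mul]
    rw [pow_succ'] at h3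
    exact h3.le
  calc ((Exc t).card : ℝ) = ∑ n ∈ Exc t, (1 : ℝ) := by simp
    _ ≤ ∑ n ∈ Exc t, z * z ^ (par t n).card / 1.4 ^ t :=
        sum_le_sum hterm
    _ ≤ ∑ n ∈ Ico (2 ^ t) (2 ^ (t + 1)), z * z ^ (par t n).card / 1.4 ^ t :=
        sum_le_sum_of_subset_of_nonneg (filter_subset _ _) (fun n _ _ => by positivity)
    _ = z * (∑ n ∈ Ico (2 ^ t) (2 ^ (t + 1)), z ^ (par t n).card) / 1.4 ^ t := by
        rw [mul_sum, sum_div]
    _ ≤ z * (z + 1) ^ t / 1.4 ^ t := by
        apply div_le_div_of_nonneg_right _ h14.le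
        exact mul_le_mul_of_nonneg_left (gen t z hz0) hz0
    _ ≤ 2 * (1.4 * 1.96) ^ t / 1.4 ^ t := by
        apply div_le_div_of_nonneg_right _ h14.le
        apply mul_le_mul (by linarith) _ (by positivity) (by norm_num)
        apply pow_le_pow_left₀ (by positivity)
        norm_num at hz3 ⊢
        linarith
    _ = 2 * 1.96 ^ t := by
        rw [mul_pow]
        field_simp

lemma t_le (t : ℕ) : (t : ℝ) ≤ 1.96 ^ t := by
  rcases Nat.lt_or_ge t 2 with h | h
  · interval_cases t <;> norm_num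
  · induction t, h using Nat.le_induction with
    | base => norm_num
    | succ t ht ih =>
      rw [pow_succ]
      push_cast
      have : (2 : ℝ) ≤ t := by exact_mod_cast ht
      nlinarith

lemma orbit_inj (x L : ℕ) (hL : T^[L] x = 1) (hlt : ∀ i < L, T^[i] x ≠ 1) (i j : ℕ)
    (hi : i < L) (hj : j < L) (h : T^[i] x = T^[j] x) : i = j := by
  have aux : ∀ i j, i < j → j < L → T^[i] x = T^[j] x → False := by
    intro i j hij hj h
    have h1 : T^[(L - j) + i] x = T^[(L - j) + j] x := by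
      rw [Function.iterate_add_apply, Function.iterate_add_apply, h]
    have h2 : (L - j) + j = L := by omega
    rw [h2, hL] at h1
    exact hlt _ (by omega) h1
  rcases lt_trichotomy i j with h1 | h1 | h1
  · exact (aux i j h1 hj h).elim
  · exact h1
  · exact (aux j i h1 hi h.symm).elim

/-- the capacity bound for one dyadic block. -/
lemma count (x L : ℕ) (hx : 0 < x) (hL : T^[L] x = 1) (hlt : ∀ i < L, T^[i] x ≠ 1) (t : ℕ) :
    (((range L).filter (fun i => 2 ^ t ≤ T^[i] x ∧ T^[i] x < 2 ^ (t + 1))).card : ℝ) ≤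
      4 * 1.96 ^ t := by
  classical
  set A := (range L).filter (fun i => 2 ^ t ≤ T^[i] x ∧ T^[i] x < 2 ^ (t + 1)) with hA
  set A2 := (range L).filter (fun i => i + t < L ∧ ((T^[i + t] x : ℕ) : ℝ) ≤ 1.96 ^ t) with hA2
  set A3 := (range L).filter (fun i => (2 ^ t ≤ T^[i] x ∧ T^[i] x < 2 ^ (t + 1)) ∧
    (1.96 : ℝ) ^ t < ((T^[i + t] x : ℕ) : ℝ)) with hA3
  have hsub : A ⊆ (Ico (L - t) L ∪ A2) ∪ A3 := by
    intro i hi
    rw [hA, mem_filter, mem_range] at hi
    rw [mem_union, mem_union, mem_Ico, hA2, mem_filter, hA3, mem_filter, mem_range]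
    by_cases h1 : i + t < L
    · by_cases h2 : ((T^[i + t] x : ℕ) : ℝ) ≤ 1.96 ^ t
      · left; right; exact ⟨hi.1, h1, h2⟩
      · right; exact ⟨hi.1, hi.2, not_le.1 h2⟩
    · left; left; omega
  have c1 : ((Ico (L - t) L).card : ℝ) ≤ t := by
    rw [Nat.card_Ico]
    have : L - (L - t) ≤ t := by omega
    exact_mod_cast this
  have c2 : (A2.card : ℝ) ≤ 1.96 ^ t := by
    have h1 : A2.card ≤ (Icc 1 ⌊(1.96 : ℝ) ^ t⌋₊).card := by
      apply card_le_card_of_injOn (fun i => T^[i + t] x)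
      · intro i hi
        rw [hA2, coe_filter, Set.mem_ofPred_eq] at hi
        rw [coe_Icc, Set.mem_Icc]
        exact ⟨iter_pos hx _, Nat.le_floor hi.2.2⟩
      · intro i hi j hj h
        rw [hA2, coe_filter, Set.mem_ofPred_eq] at hi hj
        have := orbit_inj x L hL hlt _ _ hi.2.1 hj.2.1 h
        omega
    rw [Nat.card_Icc, Nat.add_sub_cancel] at h1
    have h2 : ((⌊(1.96 : ℝ) ^ t⌋₊ : ℕ) : ℝ) ≤ 1.96 ^ t := Nat.floor_le (by positivity)
    have h3 : (A2.card : ℝ) ≤ ((⌊(1.96 : ℝ) ^ t⌋₊ : ℕ) : ℝ) := by exact_mod_cast h1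
    linarith
  have c3 : (A3.card : ℝ) ≤ 2 * 1.96 ^ t := by
    refine le_trans ?_ (count_exc t)
    have : A3.card ≤ (Exc t).card := by
      apply card_le_card_of_injOn (fun i => T^[i] x)
      · intro i hi
        rw [hA3, coe_filter, Set.mem_ofPred_eq] at hi
        unfold Exc
        rw [coe_filter, Set.mem_ofPred_eq, mem_Ico, ← Function.iterate_add_apply, add_comm t i]
        exact hi.2
      · intro i hi j hj h
        rw [hA3, coe_filter, Set.mem_ofPred_eq, mem_range] at hi hj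
        exact orbit_inj x L hL hlt _ _ hi.1 hj.1 h
    exact_mod_cast this
  have c0 : (A.card : ℝ) ≤ ((Ico (L - t) L).card : ℝ) + A2.card + A3.card := by
    have h1 := card_le_card hsub
    have h2 := card_union_le (Ico (L - t) L ∪ A2) A3
    have h3 := card_union_le (Ico (L - t) L) A2
    have h4 : A.card ≤ (Ico (L - t) L).card + A2.card + A3.card := by omega
    exact_mod_cast h4
  have := t_le t
  linarith

lemma sum_bound (x L : ℕ) (hx : 0 < x) (hL : T^[L] x = 1) (hlt : ∀ i < L, T^[i] x ≠ 1) (s : ℕ) :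
    ∑ i ∈ (range L).filter (fun i => 2 ^ s ≤ T^[i] x), (1 : ℝ) / (T^[i] x : ℕ) ≤
      200 * 0.98 ^ s := by
  classical
  obtain ⟨K, hK⟩ : ∃ K, ∀ i ∈ (range L).filter (fun i => 2 ^ s ≤ T^[i] x),
      Nat.log 2 (T^[i] x) ∈ Ico s K := by
    refine ⟨(range L).sup (fun i => Nat.log 2 (T^[i] x)) + 1, fun i hi => ?_⟩
    rw [mem_filter] at hi
    rw [mem_Ico]
    refine ⟨?_, Nat.lt_succ_of_le (le_sup (f := fun i => Nat.log 2 (T^[i] x)) hi.1)⟩
    exact Nat.le_log_of_pow_le (by norm_num) hi.2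
  rw [← sum_fiberwise_of_maps_to hK]
  have h1 : ∀ t ∈ Ico s K, ∑ i ∈ (((range L).filter (fun i => 2 ^ s ≤ T^[i] x)).filter
      (fun i => Nat.log 2 (T^[i] x) = t)), (1 : ℝ) / (T^[i] x : ℕ) ≤ 4 * 0.98 ^ t := by
    intro t _
    set F1 := (((range L).filter (fun i => 2 ^ s ≤ T^[i] x)).filter
      (fun i => Nat.log 2 (T^[i] x) = t)) with hF1
    set F2 := ((range L).filter (fun i => 2 ^ t ≤ T^[i] x ∧ T^[i] x < 2 ^ (t + 1))) with hF2
    have hsub : F1 ⊆ F2 := by
      intro i hi
      rw [hF1, mem_filter, mem_filter] at hi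
      rw [hF2, mem_filter]
      refine ⟨hi.1.1, ?_, ?_⟩
      · rw [← hi.2]
        exact Nat.pow_log_le_self 2 (iter_pos hx i).ne'
      · rw [← hi.2]
        exact Nat.lt_pow_succ_log_self (by norm_num) _
    have hp : (0 : ℝ) < 2 ^ t := by positivity
    calc ∑ i ∈ F1, (1 : ℝ) / (T^[i] x : ℕ)
        ≤ ∑ i ∈ F2, (1 : ℝ) / (T^[i] x : ℕ) :=
          sum_le_sum_of_subset_of_nonneg hsub (fun i _ _ => by positivity)
      _ ≤ ∑ i ∈ F2, (1 : ℝ) / 2 ^ t := by
          apply sum_le_sum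
          intro i hi
          rw [hF2, mem_filter] at hi
          apply one_div_le_one_div_of_le hp
          exact_mod_cast hi.2.1
      _ = (F2.card : ℝ) * (1 / 2 ^ t) := by rw [sum_const, nsmul_eq_mul]
      _ ≤ (4 * 1.96 ^ t) * (1 / 2 ^ t) :=
          mul_le_mul_of_nonneg_right (count x L hx hL hlt t) (by positivity)
      _ = 4 * 0.98 ^ t := by
          have : (0.98 : ℝ) ^ t = 1.96 ^ t / 2 ^ t := by
            rw [← div_pow]
            norm_num
          rw [this]
          ring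
  refine (sum_le_sum h1).trans ?_
  rw [← mul_sum, sum_Ico_eq_sum_range]
  have h2 : ∑ t ∈ range (K - s), (0.98 : ℝ) ^ t ≤ 50 := by
    rw [geom_sum_eq (by norm_num)]
    have h3 : (0 : ℝ) ≤ 0.98 ^ (K - s) := by positivity
    rw [div_le_iff_of_neg (by norm_num)]
    norm_num at h3 ⊢
  have h4 : ∑ t ∈ range (K - s), (0.98 : ℝ) ^ (s + t) = 0.98 ^ s * ∑ t ∈ range (K - s), 0.98 ^ t := by
    rw [mul_sum]
    exact sum_congr rfl (fun t _ => pow_add _ _ _)
  rw [h4]
  have h5 : (0 : ℝ) ≤ 0.98 ^ s := by positivity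
  nlinarith [mul_le_mul_of_nonneg_left h2 h5]

/-! ## Recursion of the residue -/

lemma steps_spec {x : ℕ} (h : Convergent x) : C^[steps x] x = 1 :=
  Nat.sInf_mem (s := {k | C^[k] x = 1}) h.2

lemma conv_C {x : ℕ} (h : Convergent x) (h1 : x ≠ 1) :
    Convergent (C x) ∧ steps x = steps (C x) + 1 := by
  have hs := steps_spec h
  have hpos : 0 < steps x := by
    rcases Nat.eq_zero_or_pos (steps x) with h0 | h0
    · rw [h0] at hs; exact (h1 hs).elim
    · exact h0
  obtain ⟨m, hm⟩ : ∃ m, steps x = m + 1 := ⟨steps x - 1, by omega⟩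
  have hcm : C^[m] (C x) = 1 := by
    rw [hm, Function.iterate_succ_apply] at hs
    exact hs
  have hc : Convergent (C x) := by
    refine ⟨?_, m, hcm⟩
    unfold C
    have := h.1
    split_ifs <;> omega
  refine ⟨hc, ?_⟩
  have h2 : steps (C x) ≤ m := Nat.sInf_le hcm
  have h3 : steps x ≤ steps (C x) + 1 := by
    apply Nat.sInf_le
    show C^[steps (C x) + 1] x = 1
    rw [Function.iterate_succ_apply]
    exact steps_spec hc
  omega

lemma E_rec {x : ℕ} (h : Convergent x) (h1 : x ≠ 1) :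
    E x = E (C x) + (if x % 2 = 0 then 1 else 0) := by
  unfold E
  rw [(conv_C h h1).2, card_filter, card_filter, sum_range_succ']
  simp only [Function.iterate_succ_apply, Function.iterate_zero, id]
  congr 1

lemma O_rec {x : ℕ} (h : Convergent x) (h1 : x ≠ 1) :
    O x = O (C x) + (if x % 2 = 1 then 1 else 0) := by
  unfold O
  rw [(conv_C h h1).2, card_filter, card_filter, sum_range_succ']
  simp only [Function.iterate_succ_apply, Function.iterate_zero, id]
  congr 1

lemma Res_nonneg (x : ℕ) : 0 ≤ Res x := by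
  unfold Res
  positivity

lemma Res_rec {x : ℕ} (h : Convergent x) (h1 : x ≠ 1) :
    Convergent (T x) ∧ steps (T x) < steps x ∧ Res x ≤ Res (T x) * (1 + 1 / (3 * x)) := by
  have hx := h.1
  have hxr : (0 : ℝ) < x := by exact_mod_cast hx
  obtain ⟨hc, hs⟩ := conv_C h h1
  have hE := E_rec h h1
  have hO := O_rec h h1
  rcases Nat.mod_two_eq_zero_or_one x with h0 | h0
  · have hCT : C x = T x := by unfold C T; rw [if_pos h0, if_pos h0]
    rw [if_pos h0] at hE
    rw [if_neg (by omega)] at hO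
    rw [hCT] at hc hs hE hO
    refine ⟨hc, by omega, ?_⟩
    have h2 : (x : ℝ) = 2 * (T x : ℕ) := by exact_mod_cast (T_even h0).symm
    have h3 : Res x = Res (T x) := by
      unfold Res
      rw [hE, hO, h2]
      have : (0 : ℝ) < (T x : ℕ) := by exact_mod_cast T_pos hx
      simp only [add_zero, pow_succ]
      field_simp
    rw [h3]
    have h4 := Res_nonneg (T x)
    have h5 : (0 : ℝ) ≤ 1 / (3 * x) := by positivity
    nlinarith [mul_nonneg h4 h5]
  · have hC : C x = 3 * x + 1 := by unfold C; rw [if_neg (by omega)]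
    have hne : C x ≠ 1 := by omega
    have hev : C x % 2 = 0 := by omega
    have hCT : C (C x) = T x := by
      have h2 : C (C x) = C x / 2 := by
        show (if C x % 2 = 0 then C x / 2 else 3 * C x + 1) = C x / 2
        rw [if_pos hev]
      rw [h2, hC]
      unfold T
      rw [if_neg (by omega)]
    obtain ⟨hc2, hs2⟩ := conv_C hc hne
    have hE2 := E_rec hc hne
    have hO2 := O_rec hc hne
    rw [if_pos hev] at hE2
    rw [if_neg (by omega)] at hO2
    rw [if_neg (by omega)] at hE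
    rw [if_pos h0] at hO
    rw [hCT] at hc2 hs2 hE2 hO2
    refine ⟨hc2, by omega, le_of_eq ?_⟩
    have h2 : 2 * ((T x : ℕ) : ℝ) = 3 * x + 1 := by exact_mod_cast T_odd h0
    have hT : (0 : ℝ) < (T x : ℕ) := by exact_mod_cast T_pos hx
    have h3 : (1 : ℝ) + 1 / (3 * x) = 2 * (T x : ℕ) / (3 * x) := by
      rw [h2]
      field_simp
    rw [h3]
    unfold Res
    rw [hE, hE2, hO, hO2]
    simp only [add_zero, pow_succ]
    field_simp

lemma chain {x : ℕ} (h : Convergent x) (n : ℕ) (hn : ∀ i < n, T^[i] x ≠ 1) :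
    Convergent (T^[n] x) ∧
      Res x ≤ Real.exp (1 / 3 * ∑ i ∈ range n, (1 : ℝ) / (T^[i] x : ℕ)) * Res (T^[n] x) := by
  induction n with
  | zero => simpa using h
  | succ n ih =>
    obtain ⟨hc, hr⟩ := ih (fun i hi => hn i (by omega))
    obtain ⟨hc2, -, hr2⟩ := Res_rec hc (hn n (by omega))
    rw [Function.iterate_succ_apply']
    refine ⟨hc2, hr.trans ?_⟩
    rw [sum_range_succ, mul_add, Real.exp_add, mul_assoc]
    apply mul_le_mul_of_nonneg_left _ (Real.exp_pos _).le
    refine hr2.trans ?_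
    rw [mul_comm]
    apply mul_le_mul_of_nonneg_right _ (Res_nonneg _)
    have h3 := Real.add_one_le_exp (1 / 3 * ((1 : ℝ) / (T^[n] x : ℕ)))
    have h4 : (1 : ℝ) / (3 * (T^[n] x : ℕ)) = 1 / 3 * ((1 : ℝ) / (T^[n] x : ℕ)) := by
      rw [one_div_mul_one_div]
    rw [h4]
    linarith

lemma reach : ∀ n x, steps x = n → Convergent x → ∃ L, T^[L] x = 1 := by
  intro n
  induction n using Nat.strong_induction_on with
  | _ n ih =>
    intro x hx hc
    by_cases h1 : x = 1
    · exact ⟨0, h1⟩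
    · obtain ⟨hc2, hs, -⟩ := Res_rec hc h1
      obtain ⟨L, hL⟩ := ih (steps (T x)) (by omega) (T x) rfl hc2
      exact ⟨L + 1, by rw [Function.iterate_succ_apply]; exact hL⟩

theorem result :
    -- comparison with bounded integers, with an error tending to 0
    (∀ s : ℕ, 1 ≤ s → ∀ x, Convergent x →
      ∃ y, Convergent y ∧ y < 2 ^ s ∧ Res x ≤ Real.exp (67 * 0.98 ^ s) * Res y) ∧
    -- an absolute bound for all residues
    (∀ x, Convergent x → Res x ≤ Real.exp 67) ∧
    -- a verification of the conjecture below `2 ^ s` bounds all residues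
    (∀ s : ℕ, 1 ≤ s → (∀ y, Convergent y → y < 2 ^ s → Res y ≤ Res 993) →
      ∀ x, Convergent x → Res x ≤ Real.exp (67 * 0.98 ^ s) * Res 993) := by
  classical
  have main : ∀ s : ℕ, 1 ≤ s → ∀ x, Convergent x →
      ∃ y, Convergent y ∧ y < 2 ^ s ∧ Res x ≤ Real.exp (67 * 0.98 ^ s) * Res y := by
    intro s hs x hx
    have hex := reach _ x rfl hx
    set L := Nat.find hex with hLdef
    have hL : T^[L] x = 1 := Nat.find_spec hex
    have hlt : ∀ i < L, T^[i] x ≠ 1 := fun i hi => Nat.find_min hex hi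
    have h2s : 1 < 2 ^ s := Nat.one_lt_two_pow (by omega)
    have hex2 : ∃ n, T^[n] x < 2 ^ s := ⟨L, by rw [hL]; exact h2s⟩
    set M := Nat.find hex2 with hMdef
    have hM : T^[M] x < 2 ^ s := Nat.find_spec hex2
    have hMlt : ∀ i < M, 2 ^ s ≤ T^[i] x := fun i hi => not_lt.1 (Nat.find_min hex2 hi)
    have hML : M ≤ L := Nat.find_min' hex2 (by rw [hL]; exact h2s)
    obtain ⟨hc, hr⟩ := chain hx M (fun i hi => by have := hMlt i hi; omega)
    refine ⟨T^[M] x, hc, hM, hr.trans ?_⟩
    apply mul_le_mul_of_nonneg_right _ (Res_nonneg _)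
    apply Real.exp_le_exp.2
    have h1 : ∑ i ∈ range M, (1 : ℝ) / (T^[i] x : ℕ) ≤
        ∑ i ∈ (range L).filter (fun i => 2 ^ s ≤ T^[i] x), (1 : ℝ) / (T^[i] x : ℕ) := by
      apply sum_le_sum_of_subset_of_nonneg
      · intro i hi
        rw [mem_range] at hi
        rw [mem_filter, mem_range]
        exact ⟨by omega, hMlt i hi⟩
      · intro i _ _
        positivity
    have h2 := sum_bound x L hx.1 hL hlt s
    have h3 : (0 : ℝ) ≤ 0.98 ^ s := by positivity
    linarith
  refine ⟨main, fun x hx => ?_, fun s hs hver x hx => ?_⟩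
  swap
  · obtain ⟨y, hy, hy2, hr⟩ := main s hs x hx
    exact hr.trans (mul_le_mul_of_nonneg_left (hver y hy hy2) (Real.exp_pos _).le)
  obtain ⟨y, hy, hy2, hr⟩ := main 1 le_rfl x hx
  have hy1 : y = 1 := by have := hy.1; omega
  have hR : Res 1 = 1 := by
    have h0 : steps 1 = 0 := by
      apply Nat.eq_zero_of_le_zero
      apply Nat.sInf_le
      rfl
    simp [Res, E, O, h0]
  rw [hy1, hR, mul_one] at hr
  refine hr.trans (Real.exp_le_exp.2 ?_)
  norm_num

end Pool.Agent.Results.MP_b192cd_nt.ResidueBounded
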